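import Pool.Agent.Work.MP_db9399_bg.Base
import Pool.Agent.Work.MP_db9399_all_helper34.VIZ

/-!
# LEFT: the leftover edges inside the reserved set `W`

The leftover graph has maximum degree at most `5 d / N`, so that Vizing's theorem gives the
matchings.
-/

set_option autoImplicit false

namespace Pool.Agent.Work.MP_db9399_bg.helper34

open Finset Classical
open Pool.Agent.Work.MP_db9399_all (nb)
open Pool.Agent.Work.MP_db9399_dn (IsMat)
open Pool.Agent.Work.MP_db9399_bg

universe u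

section
variable {V : Type u} [Fintype V] {l m r K K1 w : ℕ}

/-- the leftover graph -/
def LO (G : SimpleGraph V) (UH : Finset V) (lab : V → Lbl l m r K K1)
    (Nd : Ix m w → SimpleGraph V) : SimpleGraph V where
  Adj v v' := G.Adj v v' ∧ v ∉ UH ∧ v' ∉ UH ∧ inW (lab v) ∧ inW (lab v') ∧
    ∀ x, ¬ (Nd x).Adj v v'
  symm := ⟨fun _ _ h => ⟨h.1.symm, h.2.2.1, h.2.1, h.2.2.2.2.1, h.2.2.2.1,
    fun x hx => h.2.2.2.2.2 x hx.symm⟩⟩
  loopless := ⟨fun v h => G.loopless.irrefl v h.1⟩

/-- the labels `y` with `¬ rs x y` -/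
theorem card_nrs (hl : 1 ≤ l) (x : ZMod (2 * l + 1)) :
    (univ.filter (fun y : ZMod (2 * l + 1) => ¬ rs x y)).card + 2 = 2 * l + 1 := by
  have h1 : (univ.filter (fun y : ZMod (2 * l + 1) => rs x y)) = {-x, 1 - x} := by
    ext y
    rw [mem_filter, mem_insert, mem_singleton]
    unfold rs
    constructor
    · rintro ⟨-, h | h⟩
      · left; linear_combination h
      · right; linear_combination h
    · rintro (h | h)
      · refine ⟨mem_univ _, Or.inl ?_⟩
        rw [h]; ring
      · refine ⟨mem_univ _, Or.inr ?_⟩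
        rw [h]; ring
  have h01 : (0 : ZMod (2 * l + 1)) ≠ 1 := by
    intro h
    have h2 : ((0 : ℕ) : ZMod (2 * l + 1)) = ((1 : ℕ) : ZMod (2 * l + 1)) := by
      simpa using h
    have := natCast_inj (by omega) (by omega) h2
    omega
  have h2 : (univ.filter (fun y : ZMod (2 * l + 1) => rs x y)).card = 2 := by
    rw [h1]
    apply card_pair
    intro h
    apply h01
    linear_combination h
  have h3 := card_filter_add_card_filter_not (s := (univ : Finset (ZMod (2 * l + 1))))
    (fun y => rs x y)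
  rw [card_univ, ZMod.card, h2] at h3
  omega

/-- a nonzero residue is `± (h + 1)` -/
theorem exists_h (x : ZMod (2 * m + 1)) (hx : x ≠ 0) :
    ∃ h : Fin m, x = (((h : ℕ) + 1 : ℕ) : ZMod (2 * m + 1)) ∨
      x = -(((h : ℕ) + 1 : ℕ) : ZMod (2 * m + 1)) := by
  have hlt := ZMod.val_lt x
  have hx0 : x.val ≠ 0 := by
    intro h0
    exact hx ((ZMod.val_eq_zero x).mp h0)
  have hxe : ((x.val : ℕ) : ZMod (2 * m + 1)) = x := ZMod.natCast_zmod_val x
  by_cases hle : x.val ≤ m
  · refine ⟨⟨x.val - 1, by omega⟩, Or.inl ?_⟩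
    have : (x.val - 1 + 1 : ℕ) = x.val := by omega
    simp only [this]
    exact hxe.symm
  · refine ⟨⟨2 * m + 1 - x.val - 1, by omega⟩, Or.inr ?_⟩
    have h1 : (2 * m + 1 - x.val - 1 + 1 : ℕ) = 2 * m + 1 - x.val := by omega
    simp only [h1]
    rw [Nat.cast_sub (by omega), ZMod.natCast_self, hxe]
    ring

/-- the matchings with centre `a0` at a vertex of the cell `a0 ± (h + 1)` -/
theorem nd_count {G : SimpleGraph V} {UH : Finset V} {lab : V → Lbl l m r K K1}
    {Nd : Ix m w → SimpleGraph V} (hN : NDec G UH lab Nd) (v : V) (hv : v ∉ UH)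
    (a0 : ZMod (2 * m + 1)) (hne : (lab v).1 ≠ a0) (hk : (lab v).2.2.2.1 ≠ a0) :
    ∃ S : Finset V, (m - 1) * w ≤ S.card ∧ (∀ z ∈ S, ∃ x, (Nd x).Adj v z) ∧
      ∀ z ∈ S, G.Adj v z ∧ (lab v).1 + (lab z).1 = 2 * a0 ∧ ¬ rs (lab v).2.1 (lab z).2.1 := by
  obtain ⟨h, hh⟩ := exists_h ((lab v).1 - a0) (sub_ne_zero.mpr hne)
  -- the indices
  have hc : ∀ y : Fin m × Fin w, y.1 ≠ h → (lab v).1 ∉ c3 a0 y.1 := by
    intro y hy hmem
    rw [mem_c3] at hmem
    have hy1 : (y.1 : ℕ) ≠ (h : ℕ) := fun hE => hy (Fin.ext hE)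
    have b1 := y.1.2
    have b2 := h.2
    rcases hmem with h0 | h0 | h0
    · exact hne h0
    · have h1 : (lab v).1 - a0 = (((y.1 : ℕ) + 1 : ℕ) : ZMod (2 * m + 1)) := by
        rw [h0]; ring
      rw [h1] at hh
      rcases hh with hh | hh
      · have := natCast_inj (by omega) (by omega) hh
        omega
      · exact natCast_eq_neg (by omega) (by omega) hh
    · have h1 : (lab v).1 - a0 = -(((y.1 : ℕ) + 1 : ℕ) : ZMod (2 * m + 1)) := by
        rw [h0]; ring
      rw [h1] at hh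
      rcases hh with hh | hh
      · exact natCast_eq_neg (by omega) (by omega) hh.symm
      · have := natCast_inj (by omega) (by omega) (neg_injective hh)
        omega
  have hcov : ∀ y : Fin m × Fin w, y.1 ≠ h → ∃ z, (Nd (a0, y)).Adj v z := by
    intro y hy
    have := hN.cov (a0, y) v hv (hc y hy) (fun h0 => hk h0.1)
    obtain ⟨z, hz⟩ := this
    exact ⟨z, mem_nb.mp hz⟩
  haveI : Nonempty V := ⟨v⟩
  choose! f hf using hcov
  let I : Finset (Fin m × Fin w) := (univ.filter (fun h' : Fin m => h' ≠ h)) ×ˢ univ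
  have hI : ∀ y ∈ I, y.1 ≠ h := by
    intro y hy
    have := (mem_product.mp hy).1
    exact (mem_filter.mp this).2
  refine ⟨I.image f, ?_, ?_, ?_⟩
  · rw [card_image_of_injOn]
    · have h1 : (univ.filter (fun h' : Fin m => h' ≠ h)).card = m - 1 := by
        rw [filter_ne', card_erase_of_mem (mem_univ _), card_univ, Fintype.card_fin]
      rw [card_product, h1, card_univ, Fintype.card_fin]
    · intro y hy y' hy' hE
      by_contra hne'
      have h1 := hf y (hI y hy)
      have h2 := hf y' (hI y' hy')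
      rw [← hE] at h2
      exact hN.dis (a0, y) (a0, y') (fun h0 => hne' (Prod.ext_iff.mp h0).2) v (f y) h1 h2
  · intro z hz
    obtain ⟨y, hy, rfl⟩ := mem_image.mp hz
    exact ⟨(a0, y), hf y (hI y hy)⟩
  · intro z hz
    obtain ⟨y, hy, rfl⟩ := mem_image.mp hz
    have h1 := hf y (hI y hy)
    obtain ⟨-, -, h3, h4⟩ := hN.adj _ _ _ h1
    exact ⟨hN.le _ h1, h3, h4⟩

/-- the degrees of the leftover graph -/
theorem LO_deg (hl : 1 ≤ l) (hm : 2 ≤ m) {G : SimpleGraph V} {UH : Finset V} {d : ℕ}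
    {σ c1 : ℝ} {lab : V → Lbl l m r K K1} {Nd : Ix m w → SimpleGraph V}
    (hd : ∀ v, (nb G v).card ≤ d) (hL : LabP G d σ c1 lab) (hN : NDec G UH lab Nd)
    (hw : (1 - 2 / (2 * m + 1)) * ((1 - 2 / (2 * l + 1)) * d / (2 * m + 1)) ≤
      ((m : ℝ) - 1) * w) (v : V) :
    ((nb (LO G UH lab Nd) v).card : ℝ) ≤ 4 * d / (2 * m + 1) + (2 * m + 1) * (σ * d) := by
  have hNpos : (0 : ℝ) < 2 * (m : ℝ) + 1 := by positivity
  have hLpos : (0 : ℝ) < 2 * (l : ℝ) + 1 := by positivity
  have hd0 : (0 : ℝ) ≤ d := Nat.cast_nonneg _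
  have hσ : 0 ≤ σ * d := by
    have h1 := hL.deg v ∅
    exact le_trans (abs_nonneg _) h1
  by_cases hv : v ∉ UH ∧ inW (lab v)
  swap
  · have : nb (LO G UH lab Nd) v = ∅ := by
      rw [eq_empty_iff_forall_notMem]
      intro z hz
      rw [mem_nb] at hz
      exact hv ⟨hz.2.1, hz.2.2.2.1⟩
    rw [this, card_empty]
    push_cast
    positivity
  obtain ⟨hvU, hvW⟩ := hv
  set a := (lab v).1 with ha
  set κ := (lab v).2.2.2.1 with hκ
  -- the number of all neighbours in a cell
  have hcell : ∀ b : ZMod (2 * m + 1),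
      (((nb (LO G UH lab Nd) v).filter (fun z => (lab z).1 = b)).card : ℝ) ≤
        d / (2 * m + 1) + σ * d := by
    intro b
    have h1 := hL.deg v (bx {b} univ univ univ univ univ)
    rw [den_cell] at h1
    have h2 := (abs_le.mp h1).2
    have h3 : ((nb (LO G UH lab Nd) v).filter (fun z => (lab z).1 = b)) ⊆
        nb G v ∩ cl lab (bx {b} univ univ univ univ univ) := by
      intro z hz
      rw [mem_filter, mem_nb] at hz
      rw [mem_inter, mem_nb, mem_cl, mem_bx]
      exact ⟨hz.1.1, by simpa using hz.2⟩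
    have h4 : (((nb (LO G UH lab Nd) v).filter (fun z => (lab z).1 = b)).card : ℝ) ≤
        ((nb G v ∩ cl lab (bx {b} univ univ univ univ univ)).card : ℝ) := by
      exact_mod_cast card_le_card h3
    have h5 : 1 / (2 * (m : ℝ) + 1) * ((nb G v).card : ℝ) ≤ d / (2 * m + 1) := by
      rw [one_div_mul_eq_div]
      apply div_le_div_of_nonneg_right _ hNpos.le
      exact_mod_cast hd v
    linarith
  -- generic cells
  have hgen : ∀ b : ZMod (2 * m + 1), b ≠ a → b ≠ 2 * κ - a →
      (((nb (LO G UH lab Nd) v).filter (fun z => (lab z).1 = b)).card : ℝ) ≤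
        2 * d / (2 * m + 1) ^ 2 + σ * d := by
    intro b hb1 hb2
    obtain ⟨a0, ha0⟩ : ∃ a0 : ZMod (2 * m + 1), 2 * a0 = a + b := by
      refine ⟨((m : ZMod (2 * m + 1)) + 1) * (a + b), ?_⟩
      have h2 : ((2 * m + 1 : ℕ) : ZMod (2 * m + 1)) = 0 := ZMod.natCast_self _
      push_cast at h2
      linear_combination (a + b) * h2
    have hne : a ≠ a0 := by
      intro h0
      apply hb1
      rw [← h0] at ha0
      linear_combination -ha0
    have hkk : κ ≠ a0 := by
      intro h0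
      apply hb2
      rw [← h0] at ha0
      linear_combination -ha0
    obtain ⟨S, hS1, hS2, hS3⟩ := nd_count hN v hvU a0 hne hkk
    -- the label set
    set Q : Finset (Lbl l m r K K1) := bx {b} (univ.filter (fun y => ¬ rs (lab v).2.1 y))
      univ univ univ univ with hQ
    have hdis : Disjoint S ((nb (LO G UH lab Nd) v).filter (fun z => (lab z).1 = b)) := by
      rw [disjoint_left]
      intro z hz1 hz2
      rw [mem_filter, mem_nb] at hz2
      obtain ⟨x, hx⟩ := hS2 z hz1
      exact hz2.1.2.2.2.2.2 x hx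
    have hsub : S ∪ ((nb (LO G UH lab Nd) v).filter (fun z => (lab z).1 = b)) ⊆
        nb G v ∩ cl lab Q := by
      intro z hz
      rw [mem_inter, mem_nb, mem_cl, hQ, mem_bx]
      rcases mem_union.mp hz with hz | hz
      · obtain ⟨h1, h2, h3⟩ := hS3 z hz
        refine ⟨h1, ?_, ?_, mem_univ _, mem_univ _, mem_univ _, mem_univ _⟩
        · rw [mem_singleton]
          rw [← ha] at h2
          linear_combination h2 + ha0
        · rw [mem_filter]
          exact ⟨mem_univ _, h3⟩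
      · rw [mem_filter, mem_nb] at hz
        refine ⟨hz.1.1, ?_, ?_, mem_univ _, mem_univ _, mem_univ _, mem_univ _⟩
        · rw [mem_singleton]
          exact hz.2
        · rw [mem_filter]
          exact ⟨mem_univ _, not_rs_of_inW hvW hz.1.2.2.2.2.1⟩
    have hcard : (S.card : ℝ) +
        (((nb (LO G UH lab Nd) v).filter (fun z => (lab z).1 = b)).card : ℝ) ≤
        ((nb G v ∩ cl lab Q).card : ℝ) := by
      have := card_le_card hsub
      rw [card_union_of_disjoint hdis] at this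
      exact_mod_cast this
    have hden : den Q = (1 - 2 / (2 * l + 1)) * (1 / (2 * (m : ℝ) + 1)) := by
      rw [hQ, den_bx, card_univ_zmod, card_univ_fin, card_univ_fin, card_univ_fin,
        card_singleton]
      have h1 := card_nrs hl (lab v).2.1
      have h2 : ((univ.filter (fun y : ZMod (2 * l + 1) => ¬ rs (lab v).2.1 y)).card : ℝ) =
          2 * (l : ℝ) + 1 - 2 := by
        have : ((univ.filter (fun y : ZMod (2 * l + 1) => ¬ rs (lab v).2.1 y)).card : ℝ) + 2 =
            2 * (l : ℝ) + 1 := by exact_mod_cast h1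
        linarith
      rw [h2]
      have h3 : ((r : ℝ) + 1) ≠ 0 := by positivity
      have h4 : ((K : ℝ) + 1) ≠ 0 := by positivity
      have h5 : ((K1 : ℝ) + 1) ≠ 0 := by positivity
      push_cast
      field_simp
    have h1 := (abs_le.mp (hL.deg v Q)).2
    have hdn : 0 ≤ den Q := den_nonneg Q
    have h2 : den Q * ((nb G v).card : ℝ) ≤ den Q * d :=
      mul_le_mul_of_nonneg_left (by exact_mod_cast hd v) hdn
    have hS4 : ((m : ℝ) - 1) * w ≤ S.card := by
      have h3 : (((m - 1) * w : ℕ) : ℝ) ≤ S.card := by exact_mod_cast hS1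
      rw [Nat.cast_mul, Nat.cast_sub (by omega)] at h3
      simpa using h3
    have h6 : den Q * d = (1 - 2 / (2 * l + 1)) * d / (2 * m + 1) := by
      rw [hden]; ring
    have h7 : (1 - 2 / (2 * (l : ℝ) + 1)) ≤ 1 := by
      have : (0 : ℝ) ≤ 2 / (2 * (l : ℝ) + 1) := by positivity
      linarith
    have h8 : (1 - 2 / (2 * (l : ℝ) + 1)) * d / (2 * m + 1) ≤ d / (2 * m + 1) := by
      apply div_le_div_of_nonneg_right _ hNpos.le
      nlinarith
    have h9 : 2 / (2 * (m : ℝ) + 1) * ((1 - 2 / (2 * (l : ℝ) + 1)) * d / (2 * m + 1)) ≤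
        2 * d / (2 * m + 1) ^ 2 := by
      have e1 : 2 * (d : ℝ) / (2 * m + 1) ^ 2 = 2 / (2 * (m : ℝ) + 1) * (d / (2 * m + 1)) := by
        field_simp
      rw [e1]
      exact mul_le_mul_of_nonneg_left h8 (by positivity)
    have h10 : (1 - 2 / (2 * (m : ℝ) + 1)) * ((1 - 2 / (2 * (l : ℝ) + 1)) * d / (2 * m + 1)) =
        (1 - 2 / (2 * (l : ℝ) + 1)) * d / (2 * m + 1) -
        2 / (2 * (m : ℝ) + 1) * ((1 - 2 / (2 * (l : ℝ) + 1)) * d / (2 * m + 1)) := by ring
    linarith
  -- all cells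
  have hbd : ∀ b : ZMod (2 * m + 1),
      (((nb (LO G UH lab Nd) v).filter (fun z => (lab z).1 = b)).card : ℝ) ≤
        (2 * d / (2 * m + 1) ^ 2 + σ * d) + ((if b = a then (d : ℝ) / (2 * m + 1) else 0) +
          (if b = 2 * κ - a then (d : ℝ) / (2 * m + 1) else 0)) := by
    intro b
    have p1 : (0 : ℝ) ≤ 2 * d / (2 * m + 1) ^ 2 := by positivity
    have p2 : (0 : ℝ) ≤ (d : ℝ) / (2 * m + 1) := by positivity
    have hc := hcell b
    by_cases hb1 : b = a
    · rw [if_pos hb1]
      split_ifs <;> linarith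
    · by_cases hb2 : b = 2 * κ - a
      · rw [if_neg hb1, if_pos hb2]
        linarith
      · rw [if_neg hb1, if_neg hb2]
        have := hgen b hb1 hb2
        linarith
  have hsum : ((nb (LO G UH lab Nd) v).card : ℝ) = ∑ b : ZMod (2 * m + 1),
      (((nb (LO G UH lab Nd) v).filter (fun z => (lab z).1 = b)).card : ℝ) := by
    have := card_eq_sum_card_fiberwise (s := nb (LO G UH lab Nd) v)
      (t := (univ : Finset (ZMod (2 * m + 1)))) (f := fun z => (lab z).1)
      (fun z _ => by simp)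
    exact_mod_cast this
  rw [hsum]
  refine (sum_le_sum (fun b _ => hbd b)).trans ?_
  have s1 : ∑ b : ZMod (2 * m + 1), (if b = a then (d : ℝ) / (2 * m + 1) else 0) =
      d / (2 * m + 1) := by
    rw [sum_ite_eq' univ a, if_pos (mem_univ _)]
  have s2 : ∑ b : ZMod (2 * m + 1), (if b = 2 * κ - a then (d : ℝ) / (2 * m + 1) else 0) =
      d / (2 * m + 1) := by
    rw [sum_ite_eq' univ (2 * κ - a), if_pos (mem_univ _)]
  rw [sum_add_distrib, sum_const, card_univ, ZMod.card, sum_add_distrib, s1, s2, nsmul_eq_mul]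
  push_cast
  have e1 : (2 * (m : ℝ) + 1) * (2 * d / (2 * m + 1) ^ 2 + σ * d) +
      (d / (2 * (m : ℝ) + 1) + d / (2 * m + 1)) = 4 * d / (2 * m + 1) +
        (2 * m + 1) * (σ * d) := by
    field_simp
    ring
  linarith

end

theorem stmt_LEFT : Stmt_LEFT.{u} := by
  intro l m r K K1 hl hm
  have hNpos : (0 : ℝ) < 2 * (m : ℝ) + 1 := by positivity
  refine ⟨1 / (2 * (m : ℝ) + 1) ^ 2, 1, 2 * m + 1, by positivity, one_pos, ?_⟩
  intro V _ G d w w1 g c1 UH lab Nd hd hB hL hN hw hw1
  have hdR : 2 * (m : ℝ) + 1 ≤ d := by exact_mod_cast hd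
  have h1 : (1 : ℝ) ≤ d / (2 * m + 1) := by
    rw [le_div_iff₀ hNpos]; linarith
  have hw1' : 1 ≤ w1 := by
    by_contra h0
    have h2 : w1 = 0 := by omega
    rw [h2] at hw1
    have : 0 < 6 * (d : ℝ) / (2 * m + 1) := by
      have : (0 : ℝ) < d := lt_of_lt_of_le hNpos hdR
      positivity
    push_cast at hw1
    linarith
  have hdeg : ∀ v, (nb (LO G UH lab Nd) v).card ≤ w1 - 1 := by
    intro v
    have h2 := LO_deg hl hm hB.deg hL hN hw v
    have h3 : (2 * (m : ℝ) + 1) * (1 / (2 * m + 1) ^ 2 * d) = d / (2 * m + 1) := by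
      field_simp
    rw [h3] at h2
    have h4 : 4 * (d : ℝ) / (2 * m + 1) + d / (2 * m + 1) ≤ w1 - 1 := by
      have e1 : 6 * (d : ℝ) / (2 * m + 1) = 4 * (d : ℝ) / (2 * m + 1) + d / (2 * m + 1) +
        d / (2 * m + 1) := by ring
      linarith
    have h5 : ((nb (LO G UH lab Nd) v).card : ℝ) ≤ ((w1 - 1 : ℕ) : ℝ) := by
      rw [Nat.cast_sub hw1']
      push_cast
      linarith
    exact_mod_cast h5
  obtain ⟨t, ht⟩ := MP_db9399_all.VIZ.vizing (LO G UH lab Nd) (w1 - 1) hdeg
  let sp : V → Fin (K1 + 1) := fun v => (lab v).2.2.2.2.2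
  let Kk : Fin (K1 + 1) × Fin (K1 + 1) × Fin w1 → SimpleGraph V := fun y =>
    { Adj := fun v v' => (LO G UH lab Nd).Adj v v' ∧ t v v' = (y.2.2 : ℕ) ∧
        min (sp v) (sp v') = y.1 ∧ max (sp v) (sp v') = y.2.1
      symm := ⟨fun v v' h => ⟨h.1.symm, by rw [← ht.sym v v' h.1]; exact h.2.1,
        by rw [min_comm]; exact h.2.2.1, by rw [max_comm]; exact h.2.2.2⟩⟩
      loopless := ⟨fun v h => (LO G UH lab Nd).loopless.irrefl v h.1⟩ }
  refine ⟨Kk, ?_, ?_, ?_, ?_, ?_, ?_⟩
  · intro y v v' h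
    exact h.1.1
  · intro y v
    rw [card_le_one]
    intro z hz z' hz'
    rw [mem_nb] at hz hz'
    exact ht.inj v (by simpa [nb] using hz.1) (by simpa [nb] using hz'.1)
      (hz.2.1.trans hz'.2.1.symm)
  · intro y v v' h
    refine ⟨h.1.2.1, h.1.2.2.2.1, ?_⟩
    rcases le_total (sp v) (sp v') with hle | hle
    · left
      have := h.2.2.1
      rw [min_eq_left hle] at this
      exact this
    · right
      have := h.2.2.2
      rw [max_eq_left hle] at this
      exact this
  · intro y y' hne v v' h h'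
    apply hne
    have e1 : y.1 = y'.1 := h.2.2.1.symm.trans h'.2.2.1
    have e2 : y.2.1 = y'.2.1 := h.2.2.2.symm.trans h'.2.2.2
    have e3 : y.2.2 = y'.2.2 := Fin.ext (h.2.1.symm.trans h'.2.1)
    exact Prod.ext e1 (Prod.ext e2 e3)
  · intro y v v' h x
    exact h.1.2.2.2.2.2 x
  · intro v v' hv hv' hW hW' hG
    by_cases hx : ∃ x, (Nd x).Adj v v'
    · exact Or.inl hx
    · right
      push Not at hx
      have hLO : (LO G UH lab Nd).Adj v v' := ⟨hG, hv, hv', hW, hW', hx⟩
      have hm1 := mem_range.mp (ht.mem v v' hLO)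
      exact ⟨(min (sp v) (sp v'), max (sp v) (sp v'), ⟨t v v', by omega⟩), hLO, rfl, rfl, rfl⟩

end Pool.Agent.Work.MP_db9399_bg.helper34
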